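import Pool.Agent.helper11.VN.Spec3b
import Pool.Agent.helper62.VQ.VHP

/-!
# Row vn:VHPN (MP_07c750_an, project VN, block 3): choice of the parameters
-/

set_option autoImplicit false

open scoped MatrixGroups ContDiff Topology UpperHalfPlane ComplexConjugate ENNReal
open UpperHalfPlane MeasureTheory Filter Set

namespace Pool.Agent.VN

open Pool.Agent.RS Pool.Agent.VQ
open Pool.Agent.RPQ (CEig mean VV IsOp IsMul OProj wrd PJ nst mks MO Net Cl CkB PN upd Eqd)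

theorem VHPN_proof (hI4N : I4N_stmt) (hI6N : I6N_stmt) (hI7N : I7N_stmt) (hUND : UND_stmt) : VHPN_stmt := by
  intro Γ F κ ch k B hΓ hF hch hk h e hh he
  obtain ⟨C4, hC4, P4⟩ := hI4N Γ ch k B hΓ hch hk
  obtain ⟨C6, hC6, P6⟩ := hI6N Γ k B hΓ hk
  obtain ⟨C7, cb, hC7, hcb, P7⟩ := hI7N Γ F ch k B hΓ hF hch hk
  obtain ⟨Cu, hCu, Pu⟩ := hUND Γ κ k B hΓ hk
  obtain ⟨v0, C1, hv0, hC1, P7⟩ := P7 h e hh he
  refine ⟨v0, C1, hv0, hC1, ?_⟩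
  intro C T0 E0 M0 hC hT0 hE0 hM0
  have hcbi : 0 < 1 / cb := by positivity
  obtain ⟨C', hC'1, hCC, hC4', hC6', hC7', hCu', hCb'⟩ : ∃ C' : ℝ, 1 ≤ C' ∧ C ≤ C' ∧ C4 ≤ C' ∧ C6 ≤ C' ∧ C7 ≤ C' ∧ Cu ≤ C' ∧ 1 / cb ≤ C' := by
    refine ⟨C + C4 + C6 + C7 + Cu + 1 / cb, ?_, ?_, ?_, ?_, ?_, ?_, ?_⟩ <;> linarith
  have hC'0 : (0 : ℝ) < C' := by linarith
  have hC'4 : (1 : ℝ) ≤ C' ^ 4 := one_le_pow₀ hC'1
  have hC'5 : C' ≤ C' ^ 4 := by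
    have h1 : C' ^ 1 ≤ C' ^ 4 := pow_le_pow_right₀ hC'1 (by norm_num)
    rwa [pow_one] at h1
  obtain ⟨e2, he2⟩ : ∃ e2 : ℝ, e2 = 1 / (20 * C' ^ 4) := ⟨_, rfl⟩
  have he20 : 0 < e2 := by
    rw [he2]
    positivity
  have he2C : e2 ≤ 1 / C' := by
    rw [he2]
    apply one_div_le_one_div_of_le hC'0
    linarith
  have he27 : e2 ≤ 1 / C7 := he2C.trans (one_div_le_one_div_of_le (by linarith) hC7')
  have he2b : e2 ≤ cb := by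
    refine he2C.trans ?_
    rw [div_le_iff₀ hcb] at hCb'
    rw [div_le_iff₀ hC'0]
    linarith
  obtain ⟨th, z0, hth, hz0, P7⟩ := P7 T0 E0 e2 hT0 hE0 he20 he27 he2b
  -- number of big steps in a block
  obtain ⟨b, hb1, hb6, hb7⟩ : ∃ b : ℕ, 1 ≤ b ∧ cb ≤ b * e2 ∧ b * e2 ≤ 2 * cb := by
    refine ⟨⌈cb / e2⌉₊, ?_, ?_, ?_⟩
    · apply Nat.one_le_iff_ne_zero.mpr
      intro h0
      rw [Nat.ceil_eq_zero] at h0
      have : 0 < cb / e2 := by positivity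
      linarith
    · have h1 := Nat.le_ceil (cb / e2)
      rwa [div_le_iff₀ he20] at h1
    · have h1 := (Nat.ceil_lt_add_one (show 0 ≤ cb / e2 by positivity)).le
      have h2 := mul_le_mul_of_nonneg_right h1 he20.le
      rw [add_mul, div_mul_cancel₀ _ he20.ne'] at h2
      linarith
  obtain ⟨L, hL1, hL2⟩ : ∃ L : ℕ, 1 ≤ L ∧ M0 + 3 ≤ th * L := by
    refine ⟨⌈(M0 + 3) / th⌉₊ + 1, by omega, ?_⟩
    have h1 := Nat.le_ceil ((M0 + 3) / th)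
    rw [div_le_iff₀ hth] at h1
    push_cast
    nlinarith
  obtain ⟨n, hn1, hn2⟩ : ∃ n : ℕ, 1 ≤ n ∧ (2 * (L : ℝ) + 1) / n ≤ e := by
    refine ⟨⌈(2 * (L : ℝ) + 1) / e⌉₊ + 1, by omega, ?_⟩
    have h1 := Nat.le_ceil ((2 * (L : ℝ) + 1) / e)
    rw [div_le_iff₀ he] at h1
    rw [div_le_iff₀ (by positivity)]
    push_cast
    nlinarith
  obtain ⟨N, hN⟩ : ∃ N : ℕ, N = b * n * L := ⟨_, rfl⟩
  have hN1 : 1 ≤ N := by
    rw [hN]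
    exact Nat.one_le_iff_ne_zero.mpr (by positivity)
  obtain ⟨A, hA, hAe, hAz0, hAN, hAz8, hAz⟩ := VHP_par C' z0 N hC'1 hz0
  rw [← he2] at hAe
  have hA4 : Adm C4 A := VHP_adm (by linarith) hC4' hA
  have hA6 : Adm C6 A := VHP_adm (by linarith) hC6' hA
  have hA7 : Adm C7 A := VHP_adm (by linarith) hC7' hA
  have hAu : Adm Cu A := VHP_adm (by linarith) hCu' hA
  obtain ⟨d, R4, hd, hR4, P4⟩ := P4 A hA4
  obtain ⟨R6, hR6, P6⟩ := P6 A hA6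
  obtain ⟨R7, hR7, P7⟩ := P7 A hA7 hAe hAz0
  obtain ⟨a, Ru, ha, hRu, Pu⟩ := Pu A N (14 * N + M0 + 10) hAu hN1 (by
    have : (0 : ℝ) ≤ N := Nat.cast_nonneg N
    linarith)
  obtain ⟨R0, h3, g4, g6, g7, gu, g20, g8⟩ : ∃ R0 : ℝ, 3 ≤ R0 ∧ R4 ≤ R0 ∧ R6 ≤ R0 ∧ R7 ≤ R0 ∧ Ru ≤ R0 ∧ (2 : ℝ) ^ 20 ≤ R0 ∧
      (4 * N * ((A.m : ℝ) + 1)) ^ 8 ≤ R0 := by
    have h1 : 0 ≤ (4 * (N : ℝ) * ((A.m : ℝ) + 1)) ^ 8 := by positivity
    refine ⟨R4 + R6 + R7 + Ru + 2 ^ 20 + (4 * (N : ℝ) * ((A.m : ℝ) + 1)) ^ 8, ?_, ?_, ?_, ?_, ?_, ?_, ?_⟩ <;> linarith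
  refine ⟨th, b, L, n, N, A, a, R0, Cu, hth, hb1, hL1, hn1, hN1, hn2, hL2, VHP_adm (by linarith) hCC hA, ?_, ha, h3, hCu, ?_⟩
  · intro l hl
    rw [hN]
    exact VHP_nst b L n hb1 l hl
  intro R ρ K C0 J p χ D hR hρ hρa hK hnet hD hU
  obtain ⟨q1, q2, q3⟩ := VHP_asy A.m N A.z2 hN1 hAz8 R (g20.trans hR) (g8.trans hR)
  have hRpos : (0 : ℝ) < R := by linarith
  have hR1 : (1 : ℝ) ≤ R := by linarith
  have hlog : 0 < Real.log R := by linarith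
  have htu : A.tu R = e2 * Real.log R := by
    show (A.m : ℝ) * (A.e3 * Real.log R) = _
    rw [← mul_assoc, hAe]
  obtain ⟨k1, k2, k3, k4, k5⟩ := P4 R D (g4.trans hR) hD
  obtain ⟨nc, n1, n2⟩ := Pu R ρ K C0 J p χ D (gu.trans hR) hρ hρa hK hnet hD
  refine ⟨C' * A.z2, (1 + R ^ (-d)) * (R ^ 2 / (2 * Real.pi)), nc, ?_⟩
  have hRd0 : 0 ≤ R ^ (-d) := Real.rpow_nonneg hRpos.le _
  have hRd1 : R ^ (-d) ≤ 1 := Real.rpow_le_one_of_one_le_of_nonpos hR1 (by linarith)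
  have hpi := Real.pi_gt_three
  refine ⟨k1, k2, k3, k4, k5, ⟨?_, ?_⟩, ?_, ⟨by positivity, hAN⟩, ?_, ?_, n1⟩
  · have h1 : 0 ≤ R ^ 2 / (2 * Real.pi) := by positivity
    nlinarith
  · have h1 : (1 + R ^ (-d)) * (R ^ 2 / (2 * Real.pi)) ≤ 2 * (R ^ 2 / (2 * Real.pi)) :=
      mul_le_mul_of_nonneg_right (by linarith) (by positivity)
    have h2 : 2 * (R ^ 2 / (2 * Real.pi)) = R ^ 2 / Real.pi := by
      field_simp
    rw [h2] at h1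
    refine h1.trans ?_
    rw [div_le_iff₀ Real.pi_pos]
    nlinarith [sq_nonneg R]
  · intro x y hxy
    obtain ⟨_, _, _, j4⟩ := P6 R D (g6.trans hR) hD _ _ hxy
    exact j4.trans q2
  · intro x hx
    refine P7 R D b (g7.trans hR) hD hU ?_ ?_ x hx
    · rw [htu, ← mul_assoc]
      exact mul_le_mul_of_nonneg_right hb6 hlog.le
    · rw [htu, ← mul_assoc]
      exact mul_le_mul_of_nonneg_right hb7 hlog.le
  · intro N' h1 h2 x y w hw0 hw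
    refine (n2 N' h1 h2 x y w hw0 hw).trans ?_
    apply ENNReal.ofReal_le_ofReal
    refine mul_le_mul_of_nonneg_left ?_ (Real.rpow_nonneg hRpos.le _)
    apply pow_le_pow_left₀ (Real.rpow_nonneg hRpos.le _)
    apply Real.rpow_le_rpow_of_exponent_le hR1
    have := mul_le_mul_of_nonneg_right hCu' hAz
    linarith

end Pool.Agent.VN
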